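import Mathlib

/-!
# Binomial coefficients are Diophantine
-/

namespace Pool.Agent.Helper38.MR

open Finset

theorem digits_lt (a : ℕ → ℕ) (u : ℕ) (ha : ∀ i, a i < u) (k : ℕ) :
    ∑ i ∈ range k, a i * u ^ i < u ^ k := by
  induction k with
  | zero => simp
  | succ k ih =>
    rw [sum_range_succ, pow_succ']
    have h1 : (a k + 1) * u ^ k ≤ u * u ^ k := Nat.mul_le_mul_right _ (ha k)
    have h2 : (a k + 1) * u ^ k = a k * u ^ k + u ^ k := by ring
    omega

theorem choose_eq (n k : ℕ) :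
    (2 ^ n + 1 + 1) ^ n / (2 ^ n + 1) ^ k % (2 ^ n + 1) = n.choose k := by
  set u : ℕ := 2 ^ n + 1 with hu
  have hu0 : 0 < u := Nat.succ_pos _
  have ha : ∀ i, n.choose i < u := fun i => Nat.lt_succ_of_le (Nat.choose_le_two_pow n i)
  have h1 : (u + 1) ^ n = ∑ i ∈ range (k + (n + 1)), n.choose i * u ^ i := by
    rw [add_comm k, sum_range_add, add_pow]
    have h2 : ∑ x ∈ range k, n.choose (n + 1 + x) * u ^ (n + 1 + x) = 0 := by
      refine sum_eq_zero fun x _ => ?_
      rw [Nat.choose_eq_zero_of_lt (by omega), zero_mul]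
    rw [h2, add_zero]
    refine sum_congr rfl fun i _ => ?_
    rw [one_pow, mul_one, mul_comm]
    simp
  have h3 : ∑ i ∈ range (k + (n + 1)), n.choose i * u ^ i =
      ∑ i ∈ range k, n.choose i * u ^ i +
        u ^ k * (n.choose k + u * ∑ i ∈ range n, n.choose (k + (i + 1)) * u ^ i) := by
    rw [sum_range_add, sum_range_succ']
    congr 1
    rw [mul_add, add_comm]
    congr 1
    · rw [add_zero, mul_comm]
    · rw [← mul_assoc, mul_sum]
      refine sum_congr rfl fun i _ => ?_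
      rw [pow_add, pow_succ]
      ring
  rw [h1, h3, Nat.add_mul_div_left _ _ (pow_pos hu0 k), Nat.div_eq_of_lt (digits_lt _ u ha k),
    zero_add, Nat.add_mul_mod_self_left, Nat.mod_eq_of_lt (ha k)]

/-- The binomial coefficient is a Diophantine function. -/
theorem choose_dioph {α : Type} {f g : (α → ℕ) → ℕ} (df : Dioph.DiophFn f)
    (dg : Dioph.DiophFn g) : Dioph.DiophFn fun v => (f v).choose (g v) := by
  have h1 : Dioph.DiophFn fun v : α → ℕ => 2 ^ f v + 1 :=
    Dioph.add_dioph (Dioph.pow_dioph (Dioph.const_dioph 2) df) (Dioph.const_dioph 1)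
  have h2 : Dioph.DiophFn fun v : α → ℕ => (2 ^ f v + 1 + 1) ^ f v / (2 ^ f v + 1) ^ g v %
      (2 ^ f v + 1) :=
    Dioph.mod_dioph (Dioph.div_dioph (Dioph.pow_dioph (Dioph.add_dioph h1 (Dioph.const_dioph 1)) df)
      (Dioph.pow_dioph h1 dg)) h1
  have h3 : (fun v : α → ℕ => (f v).choose (g v)) = fun v => (2 ^ f v + 1 + 1) ^ f v /
      (2 ^ f v + 1) ^ g v % (2 ^ f v + 1) := funext fun v => (choose_eq _ _).symm
  rw [h3]
  exact h2

end Pool.Agent.Helper38.MR
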