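import Mathlib

/-!
# Existence of general families of alternating forms over the field with two elements
-/

namespace Pool.Agent.Helper38.MR

open Matrix Finset

/-- The field with two elements. -/
abbrev F := ZMod 2

variable {m N k d e : ℕ}

/-- The alternating form of `X - Xᵀ`. -/
def ev (a b : Fin N → F) (X : Matrix (Fin N) (Fin N) F) : F :=
  a ⬝ᵥ X *ᵥ b - b ⬝ᵥ X *ᵥ a

theorem ev_add (a b : Fin N → F) (X Y : Matrix (Fin N) (Fin N) F) :
    ev a b (X + Y) = ev a b X + ev a b Y := by
  unfold ev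
  rw [add_mulVec, add_mulVec, dotProduct_add, dotProduct_add]
  ring

theorem ev_smul (a b : Fin N → F) (c : F) (X : Matrix (Fin N) (Fin N) F) :
    ev a b (c • X) = c * ev a b X := by
  unfold ev
  rw [smul_mulVec, smul_mulVec, dotProduct_smul, dotProduct_smul, smul_eq_mul, smul_eq_mul]
  ring

theorem ev_vec (a b x y : Fin N → F) :
    ev a b (vecMulVec x y) = (a ⬝ᵥ x) * (y ⬝ᵥ b) - (b ⬝ᵥ x) * (y ⬝ᵥ a) := by
  unfold ev
  simp only [vecMulVec_mulVec, dotProduct_smul, MulOpposite.smul_eq_mul_unop, MulOpposite.unop_op]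

/-- Pairs `i < j`. -/
abbrev Prs (d : ℕ) : Type := Σ j : Fin d, Fin j.val

theorem card_prs (d : ℕ) : Fintype.card (Prs d) = d.choose 2 := by
  rw [Fintype.card_sigma]
  simp only [Fintype.card_fin]
  rw [Fin.sum_univ_eq_sum_range (fun j => j) d, Finset.sum_range_id, Nat.choose_two_right]

/-- The smaller index of a pair. -/
def lo {d : ℕ} (p : Prs d) : Fin d := ⟨p.2.val, p.2.isLt.trans p.1.isLt⟩

/-- The values of the forms at all the pairs. -/
def T (w : Fin k → Fin m → F) (u : Fin d → Fin N → F) :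
    (Fin m → Matrix (Fin N) (Fin N) F) →ₗ[F] (Fin k × Prs d → F) where
  toFun X q := ∑ s, w q.1 s * ev (u (lo q.2)) (u q.2.1) (X s)
  map_add' X Y := by
    funext q
    simp only [Pi.add_apply, ev_add, mul_add, Finset.sum_add_distrib]
  map_smul' c X := by
    funext q
    simp only [Pi.smul_apply, ev_smul, smul_eq_mul, RingHom.id_apply, Finset.mul_sum]
    refine Finset.sum_congr rfl fun s _ => by ring

theorem exists_dual {n r : ℕ} (u : Fin r → Fin n → F) (hu : LinearIndependent F u) :
    ∃ y : Fin r → Fin n → F, ∀ i j, u i ⬝ᵥ y j = if i = j then 1 else 0 := by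
  have h1 : (Matrix.of u).rank = Fintype.card (Fin r) := LinearIndependent.rank_matrix hu
  have h2 : Function.Surjective (Matrix.of u).mulVecLin := by
    rw [← LinearMap.range_eq_top]
    apply Submodule.eq_top_of_finrank_eq
    rw [← Matrix.rank, h1, Module.finrank_fintype_fun_eq_card]
  choose y hy using fun j : Fin r => h2 (Pi.single j 1)
  refine ⟨y, fun i j => ?_⟩
  have h3 := congrFun (hy j) i
  rw [Matrix.mulVecLin_apply] at h3
  rw [Pi.single_apply] at h3
  exact h3

theorem lo_lt {d : ℕ} (p : Prs d) : lo p < p.1 := p.2.isLt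

theorem prs_ext {d : ℕ} {p q : Prs d} (h1 : lo p = lo q) (h2 : p.1 = q.1) : p = q := by
  obtain ⟨j, i⟩ := p
  obtain ⟨j', i'⟩ := q
  simp only at h2
  subst h2
  have h5 : (lo (⟨j, i⟩ : Prs d)).val = (lo (⟨j, i'⟩ : Prs d)).val := by rw [h1]
  have h3 : i.val = i'.val := h5
  have h4 : i = i' := Fin.ext h3
  rw [h4]

theorem key {d : ℕ} (p' p : Prs d) : ((if lo p' = lo p then (1 : F) else 0) *
    (if p'.1 = p.1 then 1 else 0) - (if p'.1 = lo p then 1 else 0) *
    (if lo p' = p.1 then 1 else 0)) = if p' = p then 1 else 0 := by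
  have h4 : ¬ (p'.1 = lo p ∧ lo p' = p.1) := by
    rintro ⟨h5, h6⟩
    have h7 := lo_lt p
    have h8 := lo_lt p'
    rw [h6] at h8
    rw [← h5] at h7
    exact absurd h7 (not_lt_of_gt h8)
  have h6 : ((if p'.1 = lo p then (1 : F) else 0) * if lo p' = p.1 then 1 else 0) = 0 := by
    by_cases h7 : p'.1 = lo p
    · rw [if_neg (fun h8 => h4 ⟨h7, h8⟩), mul_zero]
    · rw [if_neg h7, zero_mul]
  rw [h6, sub_zero]
  by_cases h : p' = p
  · subst h; simp
  · rw [if_neg h]
    by_cases h7 : p'.1 = p.1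
    · rw [if_neg (fun h8 => h (prs_ext h8 h7)), zero_mul]
    · rw [if_neg h7, mul_zero]

theorem T_surj (w : Fin k → Fin m → F) (u : Fin d → Fin N → F) (hw : LinearIndependent F w)
    (hu : LinearIndependent F u) : Function.Surjective (T w u) := by
  classical
  obtain ⟨w', hw'⟩ := exists_dual w hw
  obtain ⟨u', hu'⟩ := exists_dual u hu
  rw [← LinearMap.range_eq_top, eq_top_iff, ← (Pi.basisFun F (Fin k × Prs d)).span_eq,
    Submodule.span_le]
  rintro _ ⟨⟨l, p⟩, rfl⟩
  refine ⟨fun s => w' l s • vecMulVec (u' (lo p)) (u' p.1), ?_⟩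
  funext ⟨l', p'⟩
  rw [Pi.basisFun_apply]
  change ∑ s, w l' s * ev (u (lo p')) (u p'.1) (w' l s • vecMulVec (u' (lo p)) (u' p.1)) = _
  simp only [ev_smul, ev_vec]
  have h1 : ∀ s, w l' s * (w' l s * (u (lo p') ⬝ᵥ u' (lo p) * u' p.1 ⬝ᵥ u p'.1 -
      u p'.1 ⬝ᵥ u' (lo p) * u' p.1 ⬝ᵥ u (lo p'))) = (w l' s * w' l s) *
      (u (lo p') ⬝ᵥ u' (lo p) * u' p.1 ⬝ᵥ u p'.1 -
      u p'.1 ⬝ᵥ u' (lo p) * u' p.1 ⬝ᵥ u (lo p')) := fun s => by ring
  simp only [h1]
  rw [← Finset.sum_mul]
  have h2 : ∑ s, w l' s * w' l s = if l' = l then 1 else 0 := hw' l' l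
  rw [h2, dotProduct_comm (u' p.1), dotProduct_comm (u' p.1), hu', hu', hu', hu', Pi.single_apply]
  rw [key]
  by_cases hl : l' = l
  · subst hl
    by_cases hp : p' = p
    · subst hp; simp
    · rw [if_neg hp, mul_zero, if_neg]
      intro h
      exact hp (congrArg Prod.snd h)
  · rw [if_neg hl, zero_mul, if_neg]
    intro h
    exact hl (congrArg Prod.fst h)

theorem card_ker (w : Fin k → Fin m → F) (u : Fin d → Fin N → F) (hw : LinearIndependent F w)
    (hu : LinearIndependent F u) :
    (univ.filter fun X => T w u X = 0).card * 2 ^ (k * d.choose 2) =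
      Fintype.card (Fin m → Matrix (Fin N) (Fin N) F) := by
  classical
  have h1 := Submodule.card_eq_card_quotient_mul_card (LinearMap.ker (T w u))
  have h2 : Nat.card ((Fin m → Matrix (Fin N) (Fin N) F) ⧸ LinearMap.ker (T w u)) =
      2 ^ (k * d.choose 2) := by
    rw [Nat.card_congr ((T w u).quotKerEquivOfSurjective (T_surj w u hw hu)).toEquiv,
      Nat.card_eq_fintype_card, Fintype.card_fun, Fintype.card_prod, Fintype.card_fin, card_prs,
      ZMod.card]
  have h3 : (univ.filter fun X => T w u X = 0).card = Nat.card (LinearMap.ker (T w u)) := by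
    rw [Nat.card_eq_fintype_card, ← Fintype.card_coe]
    exact Fintype.card_congr (Equiv.subtypeEquivRight fun X => by simp)
  rw [h3, ← Nat.card_eq_fintype_card, h1, h2, mul_comm]

/-- General families exist: `W s`, `s < m`, alternating forms on `F ^ N`, such that no nonzero
combination has an isotropic subspace of dimension at least `N - e`, and no `k` independent
combinations have `d` independent vectors on which they all vanish. -/
theorem exists_W (h1 : m + e * N + 2 ≤ (N - e).choose 2)
    (h2 : k * m + d * N + 2 ≤ k * d.choose 2) :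
    ∃ W : Fin m → Matrix (Fin N) (Fin N) F, (∀ s, (W s)ᵀ = - W s ∧ ∀ i, W s i i = 0) ∧
      (∀ a : Fin m → F, a ≠ 0 → ∀ U : Submodule F (Fin N → F),
        (∀ x ∈ U, ∀ y ∈ U, ∑ s, a s * (x ⬝ᵥ W s *ᵥ y) = 0) → Module.finrank F U < N - e) ∧
      ∀ w : Fin k → Fin m → F, LinearIndependent F w → ∀ u : Fin d → Fin N → F,
        LinearIndependent F u → ∃ l i j, ∑ s, w l s * (u i ⬝ᵥ W s *ᵥ u j) ≠ 0 := by
  classical
  set V := Fin m → Matrix (Fin N) (Fin N) F with hV
  -- the vectors for the first condition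
  have hex : ∀ φ : Matrix (Fin e) (Fin N) F, ∃ u : Fin (N - e) → Fin N → F,
      LinearIndependent F u ∧ ∀ i, φ *ᵥ u i = 0 := by
    intro φ
    have hr : N - e ≤ Module.finrank F (LinearMap.ker φ.mulVecLin) := by
      have h3 := LinearMap.finrank_range_add_finrank_ker φ.mulVecLin
      rw [Module.finrank_fintype_fun_eq_card, Fintype.card_fin] at h3
      have h4 : Module.finrank F (LinearMap.range φ.mulVecLin) ≤ e := by
        have h5 := Submodule.finrank_le (LinearMap.range φ.mulVecLin)
        rwa [Module.finrank_fintype_fun_eq_card, Fintype.card_fin] at h5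
      omega
    obtain ⟨f, hf⟩ := exists_linearIndependent_of_le_finrank hr
    refine ⟨fun i => (f i : Fin N → F), hf.map' (Submodule.subtype _) (Submodule.ker_subtype _),
      fun i => ?_⟩
    exact (f i).2
  choose U0 hU0 hU1 using hex
  have hsing : ∀ a : Fin m → F, a ≠ 0 → LinearIndependent F (fun _ : Fin 1 => a) := by
    intro a ha
    exact LinearIndependent.of_subsingleton (R := F) (0 : Fin 1) ha
  -- the bad sets
  let B1 : (Fin m → F) × Matrix (Fin e) (Fin N) F → Finset V := fun β =>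
    if β.1 = 0 then ∅ else univ.filter fun X => T (fun _ : Fin 1 => β.1) (U0 β.2) X = 0
  let B2 : (Fin k → Fin m → F) × (Fin d → Fin N → F) → Finset V := fun β =>
    if LinearIndependent F β.1 ∧ LinearIndependent F β.2 then
      univ.filter fun X => T β.1 β.2 X = 0 else ∅
  have c1 : ∀ β, (B1 β).card * 2 ^ (m + e * N + 2) ≤ Fintype.card V := by
    intro β
    by_cases h : β.1 = 0
    · simp only [B1, if_pos h, Finset.card_empty, zero_mul, Nat.zero_le]
    · have h3 := card_ker (fun _ : Fin 1 => β.1) (U0 β.2) (hsing _ h) (hU0 _)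
      rw [one_mul] at h3
      simp only [B1, if_neg h]
      refine le_trans ?_ h3.le
      exact Nat.mul_le_mul_left _ (Nat.pow_le_pow_right (by norm_num) h1)
  have c2 : ∀ β, (B2 β).card * 2 ^ (k * m + d * N + 2) ≤ Fintype.card V := by
    intro β
    by_cases h : LinearIndependent F β.1 ∧ LinearIndependent F β.2
    · have h3 := card_ker β.1 β.2 h.1 h.2
      simp only [B2, if_pos h]
      refine le_trans ?_ h3.le
      exact Nat.mul_le_mul_left _ (Nat.pow_le_pow_right (by norm_num) h2)
    · simp only [B2, if_neg h, Finset.card_empty, zero_mul, Nat.zero_le]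
  have n1 : Fintype.card ((Fin m → F) × Matrix (Fin e) (Fin N) F) = 2 ^ (m + e * N) := by
    rw [Fintype.card_prod, Fintype.card_fun, ZMod.card, Fintype.card_fin, pow_add]
    congr 1
    change Fintype.card (Fin e → Fin N → F) = _
    rw [Fintype.card_fun, Fintype.card_fun, ZMod.card, Fintype.card_fin, Fintype.card_fin,
      ← pow_mul, mul_comm]
  have n2 : Fintype.card ((Fin k → Fin m → F) × (Fin d → Fin N → F)) = 2 ^ (k * m + d * N) := by
    simp only [Fintype.card_prod, Fintype.card_fun, ZMod.card, Fintype.card_fin]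
    rw [pow_add, ← pow_mul, ← pow_mul, mul_comm m k, mul_comm N d]
  have hVpos : 0 < Fintype.card V := Fintype.card_pos
  have hb1 : (univ.biUnion B1).card * 4 ≤ Fintype.card V := by
    have h3 : (univ.biUnion B1).card ≤ ∑ β, (B1 β).card := Finset.card_biUnion_le
    have h4 : (∑ β, (B1 β).card) * 2 ^ (m + e * N + 2) ≤
        Fintype.card ((Fin m → F) × Matrix (Fin e) (Fin N) F) * Fintype.card V := by
      rw [Finset.sum_mul]
      calc ∑ β, (B1 β).card * 2 ^ (m + e * N + 2) ≤ ∑ β : (Fin m → F) × Matrix (Fin e) (Fin N) F,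
            Fintype.card V := Finset.sum_le_sum fun β _ => c1 β
        _ = _ := by rw [Finset.sum_const, Finset.card_univ, smul_eq_mul]
    rw [n1, pow_add _ (m + e * N) 2] at h4
    have h5 : 0 < 2 ^ (m + e * N) := by positivity
    have h6 : 2 ^ (m + e * N) * ((∑ β, (B1 β).card) * 4) ≤ 2 ^ (m + e * N) * Fintype.card V := by
      calc 2 ^ (m + e * N) * ((∑ β, (B1 β).card) * 4) =
          (∑ β, (B1 β).card) * (2 ^ (m + e * N) * 2 ^ 2) := by ring
        _ ≤ _ := h4
    have h7 := Nat.le_of_mul_le_mul_left h6 h5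
    omega
  have hb2 : (univ.biUnion B2).card * 4 ≤ Fintype.card V := by
    have h3 : (univ.biUnion B2).card ≤ ∑ β, (B2 β).card := Finset.card_biUnion_le
    have h4 : (∑ β, (B2 β).card) * 2 ^ (k * m + d * N + 2) ≤
        Fintype.card ((Fin k → Fin m → F) × (Fin d → Fin N → F)) * Fintype.card V := by
      rw [Finset.sum_mul]
      calc ∑ β, (B2 β).card * 2 ^ (k * m + d * N + 2) ≤
          ∑ β : (Fin k → Fin m → F) × (Fin d → Fin N → F),
            Fintype.card V := Finset.sum_le_sum fun β _ => c2 β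
        _ = _ := by rw [Finset.sum_const, Finset.card_univ, smul_eq_mul]
    rw [n2, pow_add _ (k * m + d * N) 2] at h4
    have h5 : 0 < 2 ^ (k * m + d * N) := by positivity
    have h6 : 2 ^ (k * m + d * N) * ((∑ β, (B2 β).card) * 4) ≤
        2 ^ (k * m + d * N) * Fintype.card V := by
      calc 2 ^ (k * m + d * N) * ((∑ β, (B2 β).card) * 4) =
          (∑ β, (B2 β).card) * (2 ^ (k * m + d * N) * 2 ^ 2) := by ring
        _ ≤ _ := h4
    have h7 := Nat.le_of_mul_le_mul_left h6 h5
    omega
  obtain ⟨X, hX⟩ : ∃ X : V, X ∉ univ.biUnion B1 ∪ univ.biUnion B2 := by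
    by_contra h
    push Not at h
    have h3 : (univ : Finset V) ⊆ univ.biUnion B1 ∪ univ.biUnion B2 := fun x _ => h x
    have h4 := (Finset.card_le_card h3).trans (Finset.card_union_le _ _)
    rw [Finset.card_univ] at h4
    omega
  rw [Finset.mem_union, not_or, Finset.mem_biUnion, Finset.mem_biUnion] at hX
  obtain ⟨hX1, hX2⟩ := hX
  push Not at hX1 hX2
  have hform : ∀ (s : Fin m) (x y : Fin N → F), x ⬝ᵥ (X s - (X s)ᵀ) *ᵥ y = ev x y (X s) := by
    intro s x y
    unfold ev
    rw [sub_mulVec, dotProduct_sub, mulVec_transpose, dotProduct_comm x (y ᵥ* X s),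
      ← dotProduct_mulVec]
  refine ⟨fun s => X s - (X s)ᵀ, fun s => ⟨by simp, fun i => by simp⟩, ?_, ?_⟩
  · intro a ha U hU
    by_contra hlt
    rw [not_lt] at hlt
    -- functionals
    obtain ⟨φ, hφ⟩ : ∃ φ : Matrix (Fin e) (Fin N) F, ∀ x, φ *ᵥ x = 0 → x ∈ U := by
      have h3 : Module.finrank F ((Fin N → F) ⧸ U) ≤ e := by
        have h4 := Submodule.finrank_quotient_add_finrank U
        rw [Module.finrank_fintype_fun_eq_card, Fintype.card_fin] at h4
        omega
      obtain ⟨g, hg⟩ : ∃ g : ((Fin N → F) ⧸ U) →ₗ[F] (Fin e → F), ∀ x, g x = 0 → x = 0 := by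
        let bs := Module.finBasis F ((Fin N → F) ⧸ U)
        refine ⟨LinearMap.pi fun i : Fin e =>
          if h : i.val < Module.finrank F ((Fin N → F) ⧸ U) then bs.coord ⟨i.val, h⟩ else 0,
          fun x hx => ?_⟩
        rw [← bs.forall_coord_eq_zero_iff]
        intro i
        have h5 := congrFun hx (Fin.castLE h3 i)
        rw [LinearMap.pi_apply, dif_pos (show (Fin.castLE h3 i).val <
          Module.finrank F ((Fin N → F) ⧸ U) from i.isLt)] at h5
        exact h5
      refine ⟨LinearMap.toMatrix' (g ∘ₗ U.mkQ), fun x hx => ?_⟩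
      rw [← Matrix.toLin'_apply, Matrix.toLin'_toMatrix', LinearMap.comp_apply] at hx
      have h5 : U.mkQ x = 0 := hg _ hx
      rwa [Submodule.mkQ_apply, Submodule.Quotient.mk_eq_zero] at h5
    have h3 := hX1 (a, φ) (Finset.mem_univ _)
    simp only [B1, if_neg ha, Finset.mem_filter, Finset.mem_univ, true_and] at h3
    apply h3
    funext q
    have h4 := hU _ (hφ _ (hU1 φ (lo q.2))) _ (hφ _ (hU1 φ q.2.1))
    simp only [hform] at h4
    exact h4
  · intro w hw u hu
    by_contra hall
    push Not at hall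
    have h3 := hX2 (w, u) (Finset.mem_univ _)
    simp only [B2, if_pos (show LinearIndependent F w ∧ LinearIndependent F u from ⟨hw, hu⟩),
      Finset.mem_filter, Finset.mem_univ, true_and] at h3
    apply h3
    funext q
    have h4 := hall q.1 (lo q.2) q.2.1
    simp only [hform] at h4
    exact h4

end Pool.Agent.Helper38.MR
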